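import Pool.Agent.MP_09973c_nt.H58.SpecT

/-!
Varying entry points give a polynomial bound for the degree.
-/

set_option autoImplicit false

namespace Pool.Agent.MP_09973c_nt.H58

open Polynomial Finset Filter Classical

theorem cv1_uniq {p q : ℕ} (h : p.Coprime q) {a b μ μ' : Qb} (hb : b ≠ 0)
    (h1 : μ ^ p * a = b) (h2 : μ ^ q * a = b) (h3 : μ' ^ p * a = b) (h4 : μ' ^ q * a = b)
    (hp : 0 < p) : μ' = μ := by
  have ha : a ≠ 0 := by rintro rfl; exact hb (by simpa using h1.symm)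
  have hμ : μ ≠ 0 := by rintro rfl; exact hb (by simpa [hp.ne'] using h1.symm)
  have e1 : (μ' / μ) ^ p = 1 := by
    rw [div_pow, mul_right_cancel₀ ha (h3.trans h1.symm), div_self (pow_ne_zero _ hμ)]
  have e2 : (μ' / μ) ^ q = 1 := by
    rw [div_pow, mul_right_cancel₀ ha (h4.trans h2.symm), div_self (pow_ne_zero _ hμ)]
  exact (div_eq_one_iff_eq hμ).1 (eq_one_of_coprime h e1 e2)

theorem cv1_pow (x : ℝ) : ∃ c : ℕ, ∀ n : ℕ, x ≤ ((n : ℝ) + 2) ^ c := by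
  obtain ⟨c, hc⟩ := pow_unbounded_of_one_lt x (one_lt_two (α := ℝ))
  exact ⟨c, fun n => hc.le.trans (pow_le_pow_left₀ zero_le_two (by linarith [n.cast_nonneg (α := ℝ)]) c)⟩

theorem cv1_arith {θ : ℝ} (hθ : 1 < θ) (C : ℝ) (C' j₀ : ℕ) : ∃ c : ℕ, ∀ n s : ℕ,
    θ ^ s ≤ C * (n + 1) → C' ^ (j₀ + s + 1) ≤ (n + 2) ^ c := by
  obtain ⟨k, hk⟩ := pow_unbounded_of_one_lt (C' : ℝ) hθ
  obtain ⟨c₁, h₁⟩ := cv1_pow ((C' : ℝ) ^ (j₀ + 1))
  obtain ⟨c₂, h₂⟩ := cv1_pow C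
  refine ⟨c₁ + (c₂ + 1) * k, fun n s h => ?_⟩
  have hn : (0 : ℝ) ≤ n := n.cast_nonneg
  have e1 : θ ^ s ≤ ((n : ℝ) + 2) ^ (c₂ + 1) := by
    rw [pow_succ]
    exact h.trans (mul_le_mul (h₂ n) (by linarith) (by linarith) (by positivity))
  have e2 : (C' : ℝ) ^ s ≤ ((n : ℝ) + 2) ^ ((c₂ + 1) * k) := by
    calc (C' : ℝ) ^ s ≤ (θ ^ k) ^ s := pow_le_pow_left₀ C'.cast_nonneg hk.le s
      _ = (θ ^ s) ^ k := by rw [← pow_mul, ← pow_mul, mul_comm]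
      _ ≤ (((n : ℝ) + 2) ^ (c₂ + 1)) ^ k := pow_le_pow_left₀ (by positivity) e1 k
      _ = _ := by rw [← pow_mul]
  have : (C' : ℝ) ^ (j₀ + s + 1) ≤ ((n : ℝ) + 2) ^ (c₁ + (c₂ + 1) * k) := by
    rw [show j₀ + s + 1 = j₀ + 1 + s by omega, pow_add _ (j₀ + 1), pow_add _ c₁]
    exact mul_le_mul (h₁ n) e2 (by positivity) (by positivity)
  exact_mod_cast this

theorem cv1_grow {p q : ℕ} (hp : 0 < p) (hpq : p < q) {a : Qb} {Ca : ℝ} (ha : ‖a‖ ≤ Ca)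
    (D : Dat p q a) {j s : ℕ} (h : j + s ≤ D.n) :
    ((q : ℝ) / p) ^ s * (lp (D.t j) - Real.log (1 + Ca)) ≤ lp (D.t (j + s)) - Real.log (1 + Ca) :=
  esc_low hp hpq ha (D.ht.shift h) s le_rfl

theorem cv1_esc (hE : ESCStmt) {p q : ℕ} {a : Qb} (b : Qb) (hp : 2 ≤ p) (hpq : p < q)
    (hc : p.Coprime q) (ha : a ≠ 0) (A : ℝ) : ∃ j₀ : ℕ, ∀ (U : Ultrafilter ℕ) (D : ℕ → Dat p q a),
      (∀ᶠ ν in (U : Filter ℕ), j₀ ≤ (D ν).n) → (∀ x, ∀ᶠ ν in (U : Filter ℕ), (D ν).u 0 ≠ x) →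
      ∀ᶠ ν in (U : Filter ℕ), ∃ g ∈ GK p q a b, A ≤ lp (g ((D ν).t j₀)) := by
  have hG := GK_index (p := p) (q := q) (Nat.mul_pos (by omega) (by omega)) a b
  obtain ⟨δ, hδ, H⟩ := hE p q a _ hp hpq hc ha hG (GK_le_left p q a b)
  obtain ⟨d, hd, Ca, -, hS⟩ := exists_Sz a
  have hθ : (1 : ℝ) < (q : ℝ) / p := by
    rw [one_lt_div (by exact_mod_cast (by omega : 0 < p))]; exact_mod_cast hpq
  obtain ⟨j, hj⟩ := pow_unbounded_of_one_lt (A / δ) hθ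
  obtain ⟨m, C₁, H⟩ := H (1 + Ca) d j 1 hd
  refine ⟨j, fun U D h1 h2 => ?_⟩
  have hf := northcott hG C₁ hd (1 + Ca)
  filter_upwards [h1, (eventually_all_finite hf).2 fun x _ => h2 x] with ν e1 e2
  have hu := (D ν).u_Sz (by omega) hpq hS
  have e3 : C₁ < (orb (GK p q a b) ((D ν).u 0)).ncard :=
    not_le.1 fun q => e2 _ ⟨q, hu 0⟩ rfl
  obtain ⟨g, hg, -, hl⟩ := H (D ν).ξ (D ν).u (D ν).t (D ν).hξ (D ν).hξ1 ((D ν).bwd_u m)
    (fun i _ => hu i) (D ν).ht0 (fun k hk => (D ν).ht k (by omega)) e3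
  refine ⟨g 0, hg 0, le_trans ?_ (hl 0)⟩
  rw [div_lt_iff₀ hδ] at hj
  linarith

theorem cv1_core (hN : NoEdgeStmt) (hW : W2Stmt) (hQC : QConStmt) (hQ : QStmt) {p q : ℕ}
    {a b μ : Qb} (hp : 2 ≤ p) (hpq : p < q) (hc : p.Coprime q) (ha : a ≠ 0) (hb : b ≠ 0)
    (hab : a ≠ b) (h1 : μ ^ p * a = b) (h2 : μ ^ q * a = b) {Ca : ℝ} (hCa : ‖a‖ ≤ Ca)
    (hCb : ‖b‖ ≤ Ca) (j₀ o o' : ℕ) : ∃ α C : ℕ, ∀ (D : Dat p q a) (D' : Dat p q b),
      D'.t D'.n ^ q = D.t D.n ^ q → D.n + o' = D'.n + o →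
      (∃ g ∈ GK p q a b, Real.log (1 + Ca) + 1 ≤ lp (g (D.t j₀))) →
      (∃ j, α ≤ j ∧ j + o ≤ D.n ∧ D'.t (j + o') = μ * D.t (j + o)) →
      (orb (GK p q a b) (D.u 0)).ncard ≤ (D.n + 2) ^ C := by
  have hp0 : 0 < p := by omega
  have hG := GK_index (p := p) (q := q) (Nat.mul_pos hp0 (by omega)) a b
  have hθ : (1 : ℝ) < (q : ℝ) / p := by
    rw [one_lt_div (by exact_mod_cast hp0)]; exact_mod_cast hpq
  have hΛ : 0 ≤ Real.log (1 + Ca) := log_one_add_nonneg ((norm_nonneg _).trans hCa)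
  have hμ0 : μ ≠ 0 := by rintro rfl; exact hb (by simpa [hp0.ne'] using h1.symm)
  have hpq' : μ ^ q = μ ^ p := mul_right_cancel₀ ha (h2.trans h1.symm)
  have hμ1 : μ ^ p ≠ 1 := fun e => hab (by rw [← h1, e, one_mul])
  have hμn : ‖μ‖ = 1 := by
    refine norm_root (M := q - p) (by omega) (mul_right_cancel₀ (pow_ne_zero p hμ0) ?_)
    rw [← pow_add, Nat.sub_add_cancel hpq.le, hpq', one_mul]
  have hgμ : ∀ g ∈ GK p q a b, g μ = μ := fun g hg =>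
    cv1_uniq hc hb h1 h2 (by rw [← map_pow, ← GK_left hg, ← map_mul, h1, GK_right hg])
      (by rw [← map_pow, ← GK_left hg, ← map_mul, h2, GK_right hg]) hp0
  obtain ⟨CN, hN⟩ := hN p q a b hp hpq hc ha hb hab
  obtain ⟨AW, CW, -, -, hW⟩ := hW p q Ca hp hpq hc
  obtain ⟨E, hE, hEp, CQ, κ, hκ, hQC⟩ := hQC p q (a : ℂ) CW hp hpq hc (by simpa using ha)
  obtain ⟨C', i₀, hQ⟩ := hQ p q a _ E (max CQ (max AW (Real.log (1 + Ca)))) κ hp hpq hc ha hG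
    (GK_le_left p q a b) hE hEp hκ
  obtain ⟨c, hcc⟩ := cv1_arith hθ |CN| C' j₀
  refine ⟨i₀ + j₀, c, ?_⟩
  rintro D D' top hn ⟨g₀, hg₀, hl⟩ ⟨j, hj, hjn, hje⟩
  obtain ⟨N, hNn⟩ : ∃ N, D.n = N + o := ⟨D.n - o, by omega⟩
  have hNn' : D'.n = N + o' := by omega
  have grow : ∀ s, j₀ + s ≤ D.n →
      ((q : ℝ) / p) ^ s ≤ lp (g₀ (D.t (j₀ + s))) - Real.log (1 + Ca) := fun s hs => by
    refine le_trans ?_ (cv1_grow hp0 hpq hCa (D.map g₀ (GK_left hg₀)) hs)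
    refine le_mul_of_one_le_right (by positivity) ?_
    change 1 ≤ lp (g₀ (D.t j₀)) - _
    linarith
  have tne : ∀ l, j₀ ≤ l → l ≤ D.n → D.t l ≠ 0 := fun l e1 e2 e3 => by
    have := grow (l - j₀) (by omega)
    rw [show j₀ + (l - j₀) = l by omega, e3, map_zero] at this
    have e4 : lp (0 : Qb) = 0 := by simp [lp]
    have e5 : (0 : ℝ) < ((q : ℝ) / p) ^ (l - j₀) := by positivity
    linarith
  obtain ⟨i, hji, hiN, hie, hmax⟩ : ∃ i, j ≤ i ∧ i ≤ N ∧ D'.t (i + o') = μ * D.t (i + o) ∧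
      ∀ l, i < l → l ≤ N → D'.t (l + o') ≠ μ * D.t (l + o) :=
    ⟨Nat.findGreatest (fun l => D'.t (l + o') = μ * D.t (l + o)) N,
      Nat.le_findGreatest (by omega) hje, Nat.findGreatest_le N,
      Nat.findGreatest_spec (P := fun l => D'.t (l + o') = μ * D.t (l + o)) (by omega : j ≤ N) hje,
      fun l e1 e2 => Nat.findGreatest_is_greatest e1 e2⟩
  have tn : D.t D.n ≠ 0 := tne _ (by omega) le_rfl
  have hi1 : i + 1 ≤ N := by
    by_contra e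
    have e1 : i = N := by omega
    rw [hNn', ← e1, hie, e1, ← hNn, mul_pow, hpq'] at top
    exact hμ1 (mul_right_cancel₀ (pow_ne_zero q tn) (top.trans (one_mul _).symm))
  have step : D'.t (i + o' + 1) ^ p = (μ * D.t (i + o + 1)) ^ p := by
    have e1 := D.ht (i + o) (by omega)
    have e2 := D'.ht (i + o') (by omega)
    rw [hie, mul_pow, ← e1, hpq'] at e2
    rw [mul_pow]
    linear_combination e2 + h1
  have hi2 : i + 2 ≤ N := by
    by_contra e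
    have e1 : i + o + 1 = D.n := by omega
    have e2 : i + o' + 1 = D'.n := by omega
    rw [e1, e2] at step
    have e3 : (μ ^ p) ^ q * (D.t D.n ^ q) ^ p = 1 * (D.t D.n ^ q) ^ p := by
      rw [one_mul]
      conv_rhs => rw [← top, ← pow_mul, mul_comm q p, pow_mul, step]
      ring
    have e4 := mul_right_cancel₀ (pow_ne_zero p (pow_ne_zero q tn)) e3
    refine hμ1 (eq_one_of_coprime hc ?_ e4)
    rw [← hpq', ← pow_mul, mul_comm q p, pow_mul, e4]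
  obtain ⟨ω, hω, hωe⟩ := exists_mul_of_pow_eq hp0 step
  have hω1 : ω ≠ 1 := fun e => hmax (i + 1) (by omega) hi1 (by
    rw [show i + 1 + o' = i + o' + 1 by omega, show i + 1 + o = i + o + 1 by omega, hωe, e, one_mul])
  have lev : ∀ g (hg : g ∈ GK p q a b) l, l ≤ N →
      (D.map g (GK_left hg)).lev (N - l) = g (D.t (l + o)) ∧
      (D'.map g (GK_right hg)).lev (N - l) = g (D'.t (l + o')) := fun g hg l hl => by
    constructor
    · change g (D.t (D.n - (N - l))) = _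
      rw [show D.n - (N - l) = l + o by omega]
    · change g (D'.t (D'.n - (N - l))) = _
      rw [show D'.n - (N - l) = l + o' by omega]
  have gtop : ∀ g (hg : g ∈ GK p q a b),
      (D'.map g (GK_right hg)).lev 0 ^ q = (D.map g (GK_left hg)).lev 0 ^ q := fun g hg => by
    change g (D'.t D'.n) ^ q = g (D.t D.n) ^ q
    rw [← map_pow, ← map_pow, top]
  have small : ((q : ℝ) / p) ^ (i + o - j₀) ≤ |CN| * (D.n + 1) := by
    have e1 := grow (i + o - j₀) (by omega)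
    rw [show j₀ + (i + o - j₀) = i + o by omega] at e1
    have e2 : lp (g₀ (D.t (i + o))) < CN * ((N - i : ℕ) + 1) := by
      by_contra e
      rw [not_lt, ← (lev g₀ hg₀ i hiN).1] at e
      refine (hN (N - i) _ _ ((D.map g₀ (GK_left hg₀)).fwd_lev (by change _ ≤ D.n; omega))
        ((D'.map g₀ (GK_right hg₀)).fwd_lev (by change _ ≤ D'.n; omega)) (gtop g₀ hg₀) e
        (N - i) le_rfl (N - i) le_rfl μ).1 h1 h2 ?_
      rw [(lev g₀ hg₀ i hiN).1, (lev g₀ hg₀ i hiN).2, hie, map_mul, hgμ g₀ hg₀]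
    have e3 : ((N - i : ℕ) : ℝ) ≤ D.n := by exact_mod_cast (by omega : N - i ≤ D.n)
    have e4 : CN * ((N - i : ℕ) + 1) ≤ |CN| * (D.n + 1) :=
      mul_le_mul (le_abs_self _) (by linarith) (by positivity) (abs_nonneg _)
    linarith
  obtain ⟨φ, hφ, hQC⟩ := hQC (ω : ℂ) (by exact_mod_cast congrArg (fun z : Qb => (z : ℂ)) hω)
    (fun e => hω1 (Subtype.ext e))
  refine (hQ D (i + o) φ (by omega) (by omega) hφ fun g hg hl => ?_).trans ?_
  swap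
  · have := hcc D.n _ small
    rwa [show j₀ + (i + o - j₀) + 1 = i + o + 1 by omega] at this
  have l1 : CQ ≤ lp (g (D.t (i + o))) := (le_max_left _ _).trans hl
  have l2 : AW ≤ lp (g (D.t (i + o))) := ((le_max_left _ _).trans (le_max_right _ _)).trans hl
  have l3 : Real.log (1 + Ca) ≤ lp (g (D.t (i + o))) :=
    ((le_max_right _ _).trans (le_max_right _ _)).trans hl
  have l4 : AW ≤ lp (g (D.t (i + 2 + o))) := by
    have e1 := cv1_grow hp0 hpq hCa (D.map g (GK_left hg)) (j := i + o) (s := 2)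
      (by change _ ≤ D.n; omega)
    change _ * (lp (g (D.t (i + o))) - _) ≤ lp (g (D.t (i + o + 2))) - _ at e1
    have e2 := le_mul_of_one_le_left (sub_nonneg.2 l3) (one_le_pow₀ (n := 2) hθ.le)
    rw [show i + 2 + o = i + o + 2 by omega]
    linarith
  obtain ⟨ζ, z1, -, z3⟩ := hW Qb goodF_Qb a b (N - (i + 2)) _ _ hCa hCb
    ((D.map g (GK_left hg)).fwd_lev (by change _ ≤ D.n; omega))
    ((D'.map g (GK_right hg)).fwd_lev (by change _ ≤ D'.n; omega)) (gtop g hg)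
    (by rw [(lev g hg _ hi2).1]; exact l4)
  have z4 := z3 _ le_rfl
  have z5 := norm_root (pow_pos (by omega) _) (z1 _ le_rfl)
  rw [(lev g hg _ hi2).1, (lev g hg _ hi2).2] at z4
  have cst : ∀ x y : Qb, x ^ p + a = y ^ q →
      ((g x : Qb) : ℂ) ^ p + (a : ℂ) = ((g y : Qb) : ℂ) ^ q := fun x y e => by
    have : g x ^ p + a = g y ^ q := by
      rw [← map_pow, ← map_pow, ← e, map_add, GK_left hg]
    exact_mod_cast congrArg (fun z : Qb => (z : ℂ)) this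
  have := hQC (g (D.t (i + o)) : Qb) (g (D.t (i + o + 1)) : Qb) (g (D.t (i + 2 + o)) : Qb)
    (g (D'.t (i + 2 + o') / μ) : Qb) (cst _ _ (D.ht _ (by omega)))
    (cst _ _ (by rw [show i + 2 + o = i + o + 1 + 1 by omega]; exact D.ht _ (by omega)))
    (by
      have e1 := D'.ht (i + o' + 1) (by omega)
      rw [hωe, show i + o' + 1 + 1 = i + 2 + o' by omega] at e1
      have e2 := cst (D'.t (i + 2 + o') / μ) (ω * D.t (i + o + 1)) (by
        have e3 := pow_ne_zero p hμ0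
        rw [div_pow, div_add' _ _ _ e3, div_eq_iff e3, mul_comm a, h1, e1, ← hpq']
        ring)
      rw [e2, map_mul, GK_p hg hω]
      rfl)
    (by
      refine le_trans (mul_le_mul_of_nonneg_right ?_ (by positivity)) z4
      change |‖g (D'.t (i + 2 + o') / μ)‖ - ‖g (D.t (i + 2 + o))‖| ≤ _
      refine le_trans (le_of_eq ?_) (abs_norm_sub_norm_le _ _)
      rw [map_div₀, hgμ g hg, norm_div, hμn, div_one, norm_mul, z5, one_mul])
    l1
  refine this.trans ?_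
  change _ * _ * Real.exp (-(κ * lp (g (D.t (i + o))))) ≤ _
  gcongr
  exact le_max_left _ _

theorem cv1_orb (hI : IPStmt) (hE : ESCStmt) (hN : NoEdgeStmt) (hW : W2Stmt) (hQC : QConStmt)
    (hQ : QStmt) {p q : ℕ} {a b : Qb} (hp : 2 ≤ p) (hpq : p < q) (hc : p.Coprime q) (ha : a ≠ 0)
    (hb : b ≠ 0) (hab : a ≠ b) {U : Ultrafilter ℕ} {D : ℕ → Dat p q a} {D' : ℕ → Dat p q b}
    {o o' : ℕ} (hS : Seq U D D' o o') :
    ∃ C : ℕ, ∀ᶠ ν in (U : Filter ℕ), (orb (GK p q a b) ((D ν).u 0)).ncard ≤ ((D ν).n + 2) ^ C := by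
  by_cases hv : ∀ x, ∀ᶠ ν in (U : Filter ℕ), (D ν).u 0 ≠ x
  swap
  · obtain ⟨x, hx⟩ := not_forall.1 hv
    obtain ⟨c, hc⟩ := cv1_pow (orb (GK p q a b) x).ncard
    refine ⟨c, (Ultrafilter.eventually_not.2 hx).mono fun ν e => ?_⟩
    rw [not_not.1 e]
    exact_mod_cast hc (D ν).n
  obtain ⟨C₁, hM⟩ := hS.toMatch hpq
  have hI := hI p q a b hp hpq hc ha hb U D D' o o' C₁ hM hv
  obtain ⟨-, -, μ, h1, h2, -⟩ := hI 0
  obtain ⟨j₀, hj₀⟩ := cv1_esc hE b hp hpq hc ha (Real.log (1 + max ‖a‖ ‖b‖) + 1)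
  obtain ⟨α, C, H⟩ := cv1_core hN hW hQC hQ hp hpq hc ha hb hab h1 h2 (le_max_left _ _)
    (le_max_right _ _) j₀ o o'
  obtain ⟨j, hj, μ', h3, h4, h5⟩ := hI α
  rw [cv1_uniq hc hb h1 h2 h3 h4 (by omega)] at h5
  refine ⟨C, ?_⟩
  filter_upwards [hS.top, hS.long (j + o), hj₀ U D (hS.long j₀) hv, h5] with ν e1 e2 e3 e4
  exact H _ _ e1.1 e1.2 e3 ⟨j, hj, e2, e4⟩

theorem cv1 (hI : IPStmt) (hE : ESCStmt) (hN : NoEdgeStmt) (hW : W2Stmt) (hQC : QConStmt)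
    (hQ : QStmt) (hD : DegStmt) : CV1Stmt := by
  intro p q a b hp hpq hc ha hb hab U D D' o o' hS hv
  obtain ⟨C₁, H₁⟩ := cv1_orb hI hE hN hW hQC hQ hp hpq hc ha hb hab hS
  obtain ⟨C₂, H₂⟩ := cv1_orb hI hE hN hW hQC hQ hp hpq hc hb ha hab.symm hS.symm
  obtain ⟨A, hD⟩ := hD p q a b (max ‖a‖ ‖b‖) hp hpq hc ha hb hab
  obtain ⟨j₀, hj₀⟩ := cv1_esc hE b hp hpq hc ha A
  obtain ⟨C₃, hD⟩ := hD j₀ (max o o')
  obtain ⟨C₄, H₄⟩ := cv1_pow (GK p q a b).index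
  refine ⟨C₁ + (o' + 1) * C₂ + C₄ + C₃, ?_⟩
  filter_upwards [H₁, H₂, hS.top, hS.long j₀, hj₀ U D (hS.long j₀) hv] with ν e1 e2 e3 e4 e5
  obtain ⟨g, hg, hl⟩ := e5
  have e6 := hD ℂ goodF_complex _ (liP_arch g)
    (by change ‖g a‖ ≤ _; rw [GK_left hg]; exact le_max_left _ _)
    (by change ‖g b‖ ≤ _; rw [GK_right hg]; exact le_max_right _ _) (D ν) (D' ν) e3.1 e4
    (by have := le_max_left o o'; omega) (by have := le_max_right o o'; omega) hl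
  have e7 : (D' ν).n + 2 ≤ ((D ν).n + 2) ^ (o' + 1) := by
    have e8 : o' < ((D ν).n + 2) ^ o' := Nat.lt_pow_self (by omega)
    rw [pow_succ]
    have := e3.2
    nlinarith
  have e8 : (GK p q a b).index ≤ ((D ν).n + 2) ^ C₄ := by exact_mod_cast H₄ (D ν).n
  rw [GK_comm] at e2
  refine e6.trans ?_
  rw [pow_add, pow_add, pow_add, pow_mul]
  refine Nat.mul_le_mul_right _ ((HC_index_le _ _).trans ?_)
  exact Nat.mul_le_mul (Nat.mul_le_mul e1 (e2.trans (Nat.pow_le_pow_left e7 _))) e8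

end Pool.Agent.MP_09973c_nt.H58
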